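import Pool.Agent.Run7.h95.IP.Line

/-!
# Few points have a small truncated counting function
-/

set_option autoImplicit false

namespace Run7.h95.IP

open NumberField IsDedekindDomain Finset Filter Topology Pool.Agent.H691R3 Pool.Agent.TH876.Loc
open Run7.h283.MK Run7.h283.UE Run7.h283.MO

variable {K : Type} [Field K] [NumberField K] {q : ℕ} {α : Fin q → K × K}

theorem hr_co_nonneg (x : Option K) : 0 ≤ hr (co x) := by
  cases x with
  | none =>
    have h : hr (co (none : Option K)) = 0 := by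
      unfold hr co
      simp
    rw [h]
  | some y => exact hr_aff_nonneg y

/-- **the points violating the inequality are few** -/
theorem thin (hq : 3 ≤ q) (hα0 : ∀ l, α l ≠ 0)
    (hα : ∀ i j, i ≠ j → wg (α i) (α j) ≠ 0) {κ : ℝ} (hκ : 0 < κ) :
    ∃ C ν : ℝ, 0 < C ∧ 0 < ν ∧ ∀ X : ℝ, 1 ≤ X → ∀ F : Finset (PP α),
      (∀ x ∈ F, nn (IS α x.1) ≤ X ∧ Real.log (nn (IS α x.1)) < (q - κ) * hr (co x.1)) →
      (F.card : ℝ) ≤ C * X ^ (2 / (q : ℝ) - ν) := by
  classical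
  have hqR : (3 : ℝ) ≤ q := by exact_mod_cast hq
  have hq0 : (0 : ℝ) < q := by linarith
  have h2q : 0 < 1 - 2 / (q : ℝ) := by
    rw [sub_pos, div_lt_one hq0]
    linarith
  obtain ⟨c, hc⟩ : ∃ c : ℝ, c = (1 - 2 / (q : ℝ)) / 2 := ⟨_, rfl⟩
  have hc0 : 0 < c := by rw [hc]; linarith
  have hc1 : c < 1 - 2 / (q : ℝ) := by rw [hc]; linarith
  obtain ⟨C, ν₀, hC, hν₀, h⟩ := Pool.Agent.R365.SH.all_upper hq (BadP α)
    (badP_finite hα0 hα) α hα0 hα c hc0.le hc1
  obtain ⟨c₂, hc₂, hup⟩ := count_upper hq hα0 hα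
  obtain ⟨ν, hν⟩ : ∃ ν : ℝ, ν = min (1 / (q : ℝ)) (min (c * (κ / q) / 2) ν₀) := ⟨_, rfl⟩
  have hν0 : 0 < ν := by
    rw [hν]
    exact lt_min (by positivity) (lt_min (by positivity) hν₀)
  have hν1 : ν ≤ 1 / (q : ℝ) := by rw [hν]; exact min_le_left _ _
  have hν2 : ν ≤ c * (κ / q) / 2 := by
    rw [hν]
    exact (min_le_right _ _).trans (min_le_left _ _)
  have hν3 : ν ≤ ν₀ := by
    rw [hν]
    exact (min_le_right _ _).trans (min_le_right _ _)
  refine ⟨c₂ + 2 * C + 1, ν, by positivity, hν0, fun X hX F hF => ?_⟩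
  have hX0 : 0 < X := by linarith
  have hL : 0 ≤ Real.log X := Real.log_nonneg hX
  have hpow : ∀ e : ℝ, Real.exp (e * Real.log X) = X ^ e := by
    intro e
    rw [mul_comm, Real.exp_mul, Real.exp_log hX0]
  have hle : ∀ e : ℝ, e ≤ 2 / (q : ℝ) - ν → X ^ e ≤ X ^ (2 / (q : ℝ) - ν) := fun e he =>
    Real.rpow_le_rpow_of_exponent_le hX he
  have hq2 : 2 / (q : ℝ) = 1 / q + 1 / q := by ring
  -- the two parts
  obtain ⟨F₁, hF₁⟩ : ∃ F₁ : Finset (PP α),
      F₁ = F.filter fun x => nn (IS α x.1) ≤ X ^ ((1 : ℝ) / 2) := ⟨_, rfl⟩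
  obtain ⟨F₂, hF₂⟩ : ∃ F₂ : Finset (PP α),
      F₂ = F.filter fun x => ¬ nn (IS α x.1) ≤ X ^ ((1 : ℝ) / 2) := ⟨_, rfl⟩
  have hsplit : (F.card : ℝ) = F₁.card + F₂.card := by
    rw [hF₁, hF₂]
    exact_mod_cast (Finset.card_filter_add_card_filter_not
      (s := F) (fun x => nn (IS α x.1) ≤ X ^ ((1 : ℝ) / 2))).symm
  have hb1 : (F₁.card : ℝ) ≤ c₂ * X ^ (2 / (q : ℝ) - ν) := by
    have h1 := hup (X ^ ((1 : ℝ) / 2)) (Real.one_le_rpow hX (by norm_num)) F₁ (fun x hx => by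
      rw [hF₁] at hx
      exact (Finset.mem_filter.1 hx).2)
    refine h1.trans (mul_le_mul_of_nonneg_left ?_ hc₂.le)
    rw [← Real.rpow_mul hX0.le]
    refine hle _ ?_
    rw [hq2]
    linarith
  -- the second part
  obtain ⟨E, hE⟩ : ∃ E : Finset K, E = (F₂.image Subtype.val).eraseNone := ⟨_, rfl⟩
  have hmemE : ∀ y, y ∈ E ↔ ∃ x ∈ F₂, x.1 = some y := by
    intro y
    rw [hE, Finset.mem_eraseNone, Finset.mem_image]
  have hcard : (F₂.card : ℝ) ≤ E.card + 1 := by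
    have h1 : F₂.image Subtype.val ⊆ E.insertNone := by
      intro o ho
      obtain ⟨x, hx, rfl⟩ := Finset.mem_image.1 ho
      rw [Finset.mem_insertNone]
      intro y hy
      exact (hmemE y).2 ⟨x, hx, Option.mem_def.1 hy⟩
    have h2 := Finset.card_le_card h1
    rw [Finset.card_image_of_injective _ Subtype.val_injective, Finset.card_insertNone] at h2
    exact_mod_cast h2
  have h1 := h (Real.log X) (κ / q * (1 / 2 * Real.log X)) hL E (fun y hy => by
    obtain ⟨x, hx, hxy⟩ := (hmemE y).1 hy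
    have hoff : ∀ l, (co (some y)).1 * (α l).2 - (co (some y)).2 * (α l).1 ≠ 0 := by
      rw [← hxy]
      exact x.2
    rw [hF₂, Finset.mem_filter, not_le] at hx
    obtain ⟨hxF, hxX⟩ := hx
    obtain ⟨g1, g2⟩ := hF x hxF
    rw [hxy] at g1 g2 hxX
    have g3 := NTc_le hα0 hα y hoff
    refine ⟨hoff, g3.trans (Real.log_le_log (nn_pos _) g1), ?_⟩
    have g4 : 0 ≤ hr (aff y) := hr_aff_nonneg y
    have g5 : Real.log (nn (IS α (some y))) < (q - κ) * hr (aff y) := g2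
    have g6 : 1 / 2 * Real.log X ≤ Real.log (nn (IS α (some y))) := by
      rw [← Real.log_rpow hX0]
      exact Real.log_le_log (by positivity) hxX.le
    have g7 : 1 / 2 * Real.log X ≤ q * hr (aff y) := by nlinarith
    have g8 : κ / q * (1 / 2 * Real.log X) ≤ κ * hr (aff y) := by
      have g9 := mul_le_mul_of_nonneg_left g7 (by positivity : 0 ≤ κ / q)
      refine g9.trans (le_of_eq ?_)
      field_simp
    linarith)
  have e1 : Real.exp (2 / q * Real.log X - c * (κ / q * (1 / 2 * Real.log X))) ≤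
      X ^ (2 / (q : ℝ) - ν) := by
    have : 2 / q * Real.log X - c * (κ / q * (1 / 2 * Real.log X)) =
        (2 / q - c * (κ / q) / 2) * Real.log X := by ring
    rw [this, hpow]
    exact hle _ (by linarith)
  have e2 : Real.exp ((2 / q - ν₀) * Real.log X) ≤ X ^ (2 / (q : ℝ) - ν) := by
    rw [hpow]
    exact hle _ (by linarith)
  have e3 : 1 ≤ X ^ (2 / (q : ℝ) - ν) := by
    refine Real.one_le_rpow hX ?_
    have : 0 < 1 / (q : ℝ) := by positivity
    rw [hq2]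
    linarith
  rw [hsplit]
  nlinarith

end Run7.h95.IP
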