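import Pool.Agent.Run7.h283.MO.Unit

/-!
# Moments of the limit law, and the tail of the limit law from below
-/

set_option autoImplicit false

namespace Run7.h95.IP

open NumberField IsDedekindDomain Finset Filter Topology Pool.Agent.H691R3 Pool.Agent.TH876.Loc
open Run7.h283.MK Run7.h283.UE Run7.h283.MO

variable {K : Type} [Field K] [NumberField K] {ι : Type} {S : ι → Finset (Pr K)}

open Classical in
/-- **the moments of the limit law** -/
theorem law_moment {k : ℕ}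
    (hSk : Summable fun x : Fin k → ι => (nn (un S x))⁻¹) {d : Finset ι → ℝ}
    (hd : ∀ F : Finset ι, HasDens K (fun n => U S n = (F : Set ι)) (d F))
    (hlaw : ∀ Φ : Set (Set ι), ∃ δ : ℝ, HasDens K (fun n => U S n ∈ Φ) δ ∧
        HasSum (fun F : Finset ι => if (F : Set ι) ∈ Φ then d F else 0) δ) :
    HasSum (fun F : Finset ι => (F.card : ℝ) ^ k * d F)
      (∑' x : Fin k → ι, (nn (un S x))⁻¹) := by
  obtain ⟨f, hf⟩ : ∃ f : (Fin k → ι) × Finset ι → ℝ,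
      f = fun p => if ∀ i, p.1 i ∈ p.2 then d p.2 else 0 := ⟨_, rfl⟩
  have hf0 : 0 ≤ f := by
    intro p
    rw [hf]
    simp only [Pi.zero_apply]
    split_ifs
    · exact (hd p.2).nonneg
    · exact le_rfl
  have hi : ∀ x, HasSum (fun F => f (x, F)) (nn (un S x))⁻¹ := by
    intro x
    obtain ⟨δ, h1, h2⟩ := hlaw {A | ∀ i, x i ∈ A}
    have h3 : δ = (nn (un S x))⁻¹ := by
      refine h1.unique ((hasDens_all (un S x)).congr fun n _ => ?_)
      constructor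
      · intro h i v hv
        exact h v (mem_un.2 ⟨i, hv⟩)
      · intro h v hv
        obtain ⟨i, hi⟩ := mem_un.1 hv
        exact h i v hi
    rw [← h3]
    convert h2 using 1
    funext F
    rw [hf]
    simp
  have hsumm : Summable f := by
    rw [summable_prod_of_nonneg hf0]
    refine ⟨fun i => (hi i).summable, ?_⟩
    refine hSk.congr fun i => ?_
    exact (hi i).tsum_eq.symm
  have h1 : HasSum f (∑' x : Fin k → ι, (nn (un S x))⁻¹) := by
    have h2 := hsumm.hasSum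
    have h3 := h2.prod_fiberwise hi
    rw [h3.tsum_eq]
    exact h2
  have h4 : HasSum (f ∘ (Equiv.prodComm (Finset ι) (Fin k → ι)))
      (∑' x : Fin k → ι, (nn (un S x))⁻¹) :=
    (Equiv.hasSum_iff _).2 h1
  refine h4.prod_fiberwise fun F => ?_
  have h5 : ∀ x, x ∉ Fintype.piFinset (fun _ : Fin k => F) →
      (f ∘ (Equiv.prodComm (Finset ι) (Fin k → ι))) (F, x) = 0 := by
    intro x hx
    rw [Fintype.mem_piFinset] at hx
    have h : f (x, F) = 0 := by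
      rw [hf]
      exact if_neg hx
    exact h
  have h6 : HasSum (fun x => (f ∘ (Equiv.prodComm (Finset ι) (Fin k → ι))) (F, x))
      (∑ x ∈ Fintype.piFinset (fun _ : Fin k => F),
        (f ∘ (Equiv.prodComm (Finset ι) (Fin k → ι))) (F, x)) := hasSum_sum_of_ne_finset_zero h5
  have h7 : ∑ x ∈ Fintype.piFinset (fun _ : Fin k => F),
      (f ∘ (Equiv.prodComm (Finset ι) (Fin k → ι))) (F, x) = (F.card : ℝ) ^ k * d F := by
    have h8 : ∑ x ∈ Fintype.piFinset (fun _ : Fin k => F),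
        (f ∘ (Equiv.prodComm (Finset ι) (Fin k → ι))) (F, x) =
        ∑ _x ∈ Fintype.piFinset (fun _ : Fin k => F), d F := by
      refine Finset.sum_congr rfl fun x hx => ?_
      rw [Fintype.mem_piFinset] at hx
      have h : f (x, F) = d F := by
        rw [hf]
        exact if_pos hx
      exact h
    rw [h8, Finset.sum_const, nsmul_eq_mul, Fintype.card_piFinset_const]
    push_cast
    ring
  rw [← h7]
  exact h6

open Classical in
/-- **the second moment inequality** -/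
theorem second_moment (F : Finset ι) {τ : ℝ} {P : Ideal (𝓞 K) → Prop}
    (hP : HasDens K P τ) (h : ∀ n, n ≠ ⊥ → (∃ i ∈ F, i ∈ U S n) → P n) :
    (∑ i ∈ F, (nn (S i))⁻¹) ^ 2 ≤ τ * ∑ i ∈ F, ∑ j ∈ F, (nn (S i ∪ S j))⁻¹ := by
  obtain ⟨e, he⟩ : ∃ e : Finset (Pr K) → Ideal (𝓞 K) → ℝ,
      e = fun A n => if (∏ v ∈ A, v.asIdeal) ∣ n then (1 : ℝ) else 0 := ⟨_, rfl⟩
  have he0 : ∀ A n, e A n = if (∏ v ∈ A, v.asIdeal) ∣ n then (1 : ℝ) else 0 := fun A n => by
    rw [he]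
  have hsum : ∀ (A : Finset (Pr K)) (N : ℝ), ∑ n ∈ IF K N, e A n = cnt K (N / nn A) := by
    intro A N
    simp only [he0]
    rw [← Finset.sum_filter, Finset.sum_const, nsmul_eq_mul, mul_one, card_dvd K (prod_ne _),
      absNorm_prod']
  have hmul : ∀ (A B : Finset (Pr K)) n, e A n * e B n = e (A ∪ B) n := by
    intro A B n
    simp only [he0, Run7.h283.UE.prod_dvd_iff]
    by_cases hA : ∀ v ∈ A, v.asIdeal ∣ n
    · by_cases hB : ∀ v ∈ B, v.asIdeal ∣ n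
      · rw [if_pos hA, if_pos hB, if_pos, one_mul]
        intro v hv
        rcases Finset.mem_union.1 hv with hv | hv
        · exact hA v hv
        · exact hB v hv
      · have hAB : ¬ ∀ v ∈ A ∪ B, v.asIdeal ∣ n :=
          fun h' => hB fun v hv => h' v (Finset.mem_union_right _ hv)
        rw [if_neg hB, if_neg hAB, mul_zero]
    · have hAB : ¬ ∀ v ∈ A ∪ B, v.asIdeal ∣ n :=
        fun h' => hA fun v hv => h' v (Finset.mem_union_left _ hv)
      rw [if_neg hA, if_neg hAB, zero_mul]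
  obtain ⟨X, hX⟩ : ∃ X : Ideal (𝓞 K) → ℝ, X = fun n => ∑ i ∈ F, e (S i) n := ⟨_, rfl⟩
  have hX0 : ∀ n, n ≠ ⊥ → ¬ P n → X n = 0 := by
    intro n hn hPn
    rw [hX]
    refine Finset.sum_eq_zero fun i hi => ?_
    rw [he0, if_neg]
    intro hd
    exact hPn (h n hn ⟨i, hi, (Run7.h283.UE.prod_dvd_iff _ _).1 hd⟩)
  have hA : ∀ N, ∑ n ∈ (IF K N).filter P, X n = ∑ i ∈ F, cnt K (N / nn (S i)) := by
    intro N
    have h1 : ∑ n ∈ (IF K N).filter P, X n = ∑ n ∈ IF K N, X n := by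
      refine Finset.sum_subset (Finset.filter_subset _ _) ?_
      intro n hn hn'
      refine hX0 n (mem_IF.1 hn).1 fun hp => hn' (Finset.mem_filter.2 ⟨hn, hp⟩)
    rw [h1, hX, Finset.sum_comm]
    exact Finset.sum_congr rfl fun i _ => hsum _ _
  have hB : ∀ N, ∑ n ∈ (IF K N).filter P, X n ^ 2 ≤
      ∑ i ∈ F, ∑ j ∈ F, cnt K (N / nn (S i ∪ S j)) := by
    intro N
    have h1 : ∑ n ∈ (IF K N).filter P, X n ^ 2 ≤ ∑ n ∈ IF K N, X n ^ 2 :=
      Finset.sum_le_sum_of_subset_of_nonneg (Finset.filter_subset _ _) fun n _ _ => sq_nonneg _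
    refine h1.trans (le_of_eq ?_)
    have h2 : ∀ n, X n ^ 2 = ∑ i ∈ F, ∑ j ∈ F, e (S i ∪ S j) n := by
      intro n
      rw [hX, sq, Finset.sum_mul_sum]
      exact Finset.sum_congr rfl fun i _ => Finset.sum_congr rfl fun j _ => hmul _ _ _
    simp only [h2]
    rw [Finset.sum_comm]
    refine Finset.sum_congr rfl fun i _ => ?_
    rw [Finset.sum_comm]
    exact Finset.sum_congr rfl fun j _ => hsum _ _
  have hCS : ∀ N : ℝ, (∑ i ∈ F, cnt K (N / nn (S i)) / cnt K N) ^ 2 ≤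
      ((((IF K N).filter P).card : ℝ) / cnt K N) *
        ∑ i ∈ F, ∑ j ∈ F, cnt K (N / nn (S i ∪ S j)) / cnt K N := by
    intro N
    have h1 := sq_sum_le_card_mul_sum_sq (s := (IF K N).filter P) (f := X)
    rw [hA] at h1
    have h2 := h1.trans (mul_le_mul_of_nonneg_left (hB N) (Nat.cast_nonneg _))
    have hc := cnt_nonneg K N
    have e1 : ∑ i ∈ F, cnt K (N / nn (S i)) / cnt K N =
        (∑ i ∈ F, cnt K (N / nn (S i))) / cnt K N := by rw [Finset.sum_div]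
    have e2 : ∑ i ∈ F, ∑ j ∈ F, cnt K (N / nn (S i ∪ S j)) / cnt K N =
        (∑ i ∈ F, ∑ j ∈ F, cnt K (N / nn (S i ∪ S j))) / cnt K N := by
      rw [Finset.sum_div]
      exact Finset.sum_congr rfl fun i _ => by rw [Finset.sum_div]
    rw [e1, e2, div_pow, div_mul_div_comm, ← sq]
    exact div_le_div_of_nonneg_right h2 (by positivity)
  refine le_of_tendsto_of_tendsto' (((tendsto_finsetSum F fun i _ =>
    tendsto_cnt_div (K := K) (nn_pos (S i))).pow 2)) ?_ hCS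
  exact Tendsto.mul hP (tendsto_finsetSum F fun i _ => tendsto_finsetSum F fun j _ =>
    tendsto_cnt_div (K := K) (nn_pos (S i ∪ S j)))

open Classical in
/-- the sum over the pairs -/
theorem pair_sum {C : ℝ} (hC : 1 ≤ C)
    (hunit : ∀ T : Finset (Pr K), ∀ F : Finset ι, (∀ x ∈ F, S x ⊆ T) →
      (F.card : ℝ) ≤ C ^ (T.card + 1)) {ε : ℝ} (hε : 0 < ε) :
    ∃ M : ℝ, 0 < M ∧ ∀ W : ℝ, 1 ≤ W → ∀ F : Finset ι, (∀ x ∈ F, nn (S x) ≤ W) →
      ∑ i ∈ F, ∑ j ∈ F, (nn (S i ∪ S j))⁻¹ ≤ M * W ^ ε * ∑ i ∈ F, (nn (S i))⁻¹ := by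
  have hε3 : 0 < ε / 3 := by linarith
  obtain ⟨D, hD, hpow⟩ := pow_card (K := K) hC hε3
  obtain ⟨Cs, hCs, hsum⟩ := sets_sum (K := K) hε3
  refine ⟨C * D * Cs, by positivity, fun W hW F hF => ?_⟩
  have hW0 : 0 < W := by linarith
  rw [Finset.mul_sum]
  refine Finset.sum_le_sum fun i hi => ?_
  have hsplit : ∀ j, (nn (S i ∪ S j))⁻¹ = (nn (S j \ S i))⁻¹ * (nn (S i))⁻¹ := by
    intro j
    have h1 := nn_sdiff (K := K) (s := S i ∪ S j) (t := S i) Finset.subset_union_left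
    rw [Finset.union_sdiff_left] at h1
    rw [← mul_inv, h1]
  simp only [hsplit]
  rw [← Finset.sum_mul]
  refine mul_le_mul_of_nonneg_right ?_ (inv_nonneg.2 (nn_pos _).le)
  have h1 : ∑ j ∈ F, (nn (S j \ S i))⁻¹ = ∑ b ∈ F.image (fun j => S j \ S i),
      ∑ j ∈ F.filter (fun j => S j \ S i = b), (nn (S j \ S i))⁻¹ :=
    (Finset.sum_fiberwise_of_maps_to (fun j hj => Finset.mem_image_of_mem _ hj) _).symm
  rw [h1]
  have h2 : ∀ b ∈ F.image (fun j => S j \ S i),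
      ∑ j ∈ F.filter (fun j => S j \ S i = b), (nn (S j \ S i))⁻¹ ≤
        C * D * W ^ ε * nn b ^ (-(1 + ε / 3)) := by
    intro b hb
    obtain ⟨j0, hj0, hb0⟩ := Finset.mem_image.1 hb
    have hbp := nn_pos b
    have hbW : nn b ≤ W := by
      rw [← hb0]
      exact (nn_mono Finset.sdiff_subset).trans (hF j0 hj0)
    have e1 : ∑ j ∈ F.filter (fun j => S j \ S i = b), (nn (S j \ S i))⁻¹ =
        ((F.filter (fun j => S j \ S i = b)).card : ℝ) * (nn b)⁻¹ := by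
      rw [← nsmul_eq_mul, ← Finset.sum_const]
      refine Finset.sum_congr rfl fun j hj => ?_
      rw [(Finset.mem_filter.1 hj).2]
    have e2 := hunit (S i ∪ b) (F.filter (fun j => S j \ S i = b)) (by
      intro j hj v hv
      rw [Finset.mem_union]
      by_cases hvi : v ∈ S i
      · exact Or.inl hvi
      · right
        rw [← (Finset.mem_filter.1 hj).2]
        exact Finset.mem_sdiff.2 ⟨hv, hvi⟩)
    have e3 : nn (S i ∪ b) ≤ W * W := by
      have h3 := nn_sdiff (K := K) (s := S i ∪ b) (t := S i) Finset.subset_union_left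
      rw [Finset.union_sdiff_left] at h3
      rw [← h3]
      exact mul_le_mul ((nn_mono Finset.sdiff_subset).trans hbW) (hF i hi) (nn_pos _).le hW0.le
    have e4 : ((F.filter (fun j => S j \ S i = b)).card : ℝ) ≤ C * D * (W * W) ^ (ε / 3) := by
      refine e2.trans ?_
      rw [pow_succ, mul_comm, mul_assoc]
      refine mul_le_mul_of_nonneg_left ?_ (by linarith)
      refine (hpow _).trans (mul_le_mul_of_nonneg_left ?_ (by linarith))
      exact Real.rpow_le_rpow (nn_pos _).le e3 hε3.le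
    rw [e1]
    refine (mul_le_mul_of_nonneg_right e4 (inv_nonneg.2 hbp.le)).trans ?_
    have e5 : (nn b)⁻¹ = nn b ^ (ε / 3) * nn b ^ (-(1 + ε / 3)) := by
      rw [← Real.rpow_add hbp, ← Real.rpow_neg_one]
      congr 1
      ring
    have e6 : (W * W) ^ (ε / 3) * W ^ (ε / 3) = W ^ ε := by
      rw [Real.mul_rpow hW0.le hW0.le, ← Real.rpow_add hW0, ← Real.rpow_add hW0]
      congr 1
      ring
    rw [e5]
    have e7 : nn b ^ (ε / 3) ≤ W ^ (ε / 3) := Real.rpow_le_rpow hbp.le hbW hε3.le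
    have e8 : (0 : ℝ) ≤ nn b ^ (-(1 + ε / 3)) := Real.rpow_nonneg hbp.le _
    calc C * D * (W * W) ^ (ε / 3) * (nn b ^ (ε / 3) * nn b ^ (-(1 + ε / 3))) ≤
        C * D * (W * W) ^ (ε / 3) * (W ^ (ε / 3) * nn b ^ (-(1 + ε / 3))) := by
          refine mul_le_mul_of_nonneg_left (mul_le_mul_of_nonneg_right e7 e8) (by positivity)
      _ = C * D * ((W * W) ^ (ε / 3) * W ^ (ε / 3)) * nn b ^ (-(1 + ε / 3)) := by ring
      _ = _ := by rw [e6]
  refine (Finset.sum_le_sum h2).trans ?_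
  rw [← Finset.mul_sum]
  calc C * D * W ^ ε * ∑ b ∈ F.image (fun j => S j \ S i), nn b ^ (-(1 + ε / 3)) ≤
      C * D * W ^ ε * Cs := mul_le_mul_of_nonneg_left (hsum _) (by positivity)
    _ = _ := by ring

open Classical in
/-- **the tail of the limit law from below** -/
theorem tail_lower (hS : Summable fun i => (nn (S i))⁻¹) {C : ℝ} (hC : 1 ≤ C)
    (hunit : ∀ T : Finset (Pr K), ∀ F : Finset ι, (∀ x ∈ F, S x ⊆ T) →
      (F.card : ℝ) ≤ C ^ (T.card + 1)) {θ c₁ c₂ X₀ : ℝ} (hθ : 0 < θ) (hθ1 : θ < 1)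
    (hc₁ : 0 < c₁) (hc₂ : 0 < c₂)
    (hlow : ∀ X : ℝ, X₀ ≤ X → ∃ F : Finset ι, (∀ x ∈ F, nn (S x) ≤ X) ∧ c₁ * X ^ θ ≤ F.card)
    (hup : ∀ X : ℝ, 1 ≤ X → ∀ F : Finset ι, (∀ x ∈ F, nn (S x) ≤ X) →
      (F.card : ℝ) ≤ c₂ * X ^ θ) {δ : ℝ} (hδ : 0 < δ) :
    ∃ c : ℝ, 0 < c ∧ ∀ Z : ℝ, 1 ≤ Z → ∀ τ : ℝ,
      HasDens K (fun n => ∃ i ∈ U S n, Z < nn (S i)) τ → c * Z ^ (θ - 1 - δ) ≤ τ := by
  obtain ⟨M, hM, hpair⟩ := pair_sum (K := K) (S := S) hC hunit hδ
  obtain ⟨A, hA⟩ : ∃ A : ℝ, A = (2 * c₂ / c₁ + 1) ^ (1 / θ) := ⟨_, rfl⟩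
  have hA1 : 1 ≤ A := by
    rw [hA]
    refine Real.one_le_rpow ?_ (by positivity)
    have : 0 < 2 * c₂ / c₁ := by positivity
    linarith
  have hA0 : 0 < A := by linarith
  have hAθ : 2 * c₂ ≤ c₁ * A ^ θ := by
    rw [hA, ← Real.rpow_mul (by positivity), one_div_mul_cancel hθ.ne', Real.rpow_one]
    have : c₁ * (2 * c₂ / c₁ + 1) = 2 * c₂ + c₁ := by field_simp
    rw [this]
    linarith
  obtain ⟨X₁, hX₁⟩ : ∃ X₁ : ℝ, X₁ = max 1 X₀ := ⟨_, rfl⟩
  have hX₁1 : 1 ≤ X₁ := by rw [hX₁]; exact le_max_left _ _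
  have hX₁0 : X₀ ≤ X₁ := by rw [hX₁]; exact le_max_right _ _
  obtain ⟨c, hc⟩ : ∃ c : ℝ, c = c₂ / (A * (M * A ^ δ)) := ⟨_, rfl⟩
  have hc0 : 0 < c := by rw [hc]; positivity
  have key : ∀ Z : ℝ, X₁ ≤ Z → ∀ τ : ℝ,
      HasDens K (fun n => ∃ i ∈ U S n, Z < nn (S i)) τ → c * Z ^ (θ - 1 - δ) ≤ τ := by
    intro Z hZ τ hτ
    have hZ1 : 1 ≤ Z := hX₁1.trans hZ
    have hZ0 : 0 < Z := by linarith
    have hAZ : Z ≤ A * Z := le_mul_of_one_le_left hZ0.le hA1
    obtain ⟨F, hF, hcard⟩ := hlow (A * Z) (by linarith)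
    obtain ⟨G, hG⟩ : ∃ G, G = F.filter fun i => Z < nn (S i) := ⟨_, rfl⟩
    have hGF : ∀ i ∈ G, nn (S i) ≤ A * Z := by
      intro i hi
      rw [hG, Finset.mem_filter] at hi
      exact hF i hi.1
    have hGcard : c₂ * Z ^ θ ≤ G.card := by
      have h1 : (F.card : ℝ) = G.card + (F.filter fun i => ¬ Z < nn (S i)).card := by
        rw [hG]
        have := Finset.card_filter_add_card_filter_not (s := F) (fun i => Z < nn (S i))
        exact_mod_cast this.symm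
      have h2 := hup Z hZ1 (F.filter fun i => ¬ Z < nn (S i)) (fun i hi =>
        not_lt.1 (Finset.mem_filter.1 hi).2)
      have h3 : 2 * c₂ * Z ^ θ ≤ c₁ * (A * Z) ^ θ := by
        rw [Real.mul_rpow hA0.le hZ0.le, ← mul_assoc]
        exact mul_le_mul_of_nonneg_right hAθ (by positivity)
      linarith
    obtain ⟨E, hE⟩ : ∃ E : ℝ, E = ∑ i ∈ G, (nn (S i))⁻¹ := ⟨_, rfl⟩
    have hElow : c₂ * Z ^ θ * (A * Z)⁻¹ ≤ E := by
      rw [hE]
      calc c₂ * Z ^ θ * (A * Z)⁻¹ ≤ (G.card : ℝ) * (A * Z)⁻¹ :=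
            mul_le_mul_of_nonneg_right hGcard (by positivity)
        _ = ∑ _i ∈ G, (A * Z)⁻¹ := by rw [Finset.sum_const, nsmul_eq_mul]
        _ ≤ _ := Finset.sum_le_sum fun i hi => inv_anti₀ (nn_pos _) (hGF i hi)
    have hE0 : 0 < E := lt_of_lt_of_le (by positivity) hElow
    have h2 := second_moment G hτ (fun n _ ⟨i, hi, hin⟩ => ⟨i, hin, by
      rw [hG, Finset.mem_filter] at hi
      exact hi.2⟩)
    have h3 := hpair (A * Z) (hZ1.trans hAZ) G hGF
    rw [← hE] at h2 h3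
    have hτ0 : 0 ≤ τ := hτ.nonneg
    have h4 : E ^ 2 ≤ τ * (M * (A * Z) ^ δ) * E := by
      refine h2.trans ?_
      rw [mul_assoc]
      exact mul_le_mul_of_nonneg_left h3 hτ0
    have h5 : E ≤ τ * (M * (A * Z) ^ δ) := by
      rw [sq] at h4
      exact le_of_mul_le_mul_right h4 hE0
    have h6 := hElow.trans h5
    have hp : (0 : ℝ) < M * (A * Z) ^ δ := by positivity
    rw [← div_le_iff₀ hp] at h6
    refine le_trans (le_of_eq ?_) h6
    rw [hc, Real.mul_rpow hA0.le hZ0.le]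
    have e1 : Z ^ (θ - 1 - δ) = Z ^ θ / Z / Z ^ δ := by
      rw [Real.rpow_sub hZ0, Real.rpow_sub hZ0, Real.rpow_one]
    rw [e1]
    field_simp
  obtain ⟨τ₁, hτ₁⟩ := exists_dens hS {B : Set ι | ∃ i ∈ B, X₁ < nn (S i)}
  have hτ₁' : HasDens K (fun n => ∃ i ∈ U S n, X₁ < nn (S i)) τ₁ := hτ₁
  have h1 := key X₁ le_rfl τ₁ hτ₁'
  have hneg : θ - 1 - δ ≤ 0 := by linarith
  have hX₁p : X₁ ^ (θ - 1 - δ) ≤ 1 := Real.rpow_le_one_of_one_le_of_nonpos hX₁1 hneg
  refine ⟨c * X₁ ^ (θ - 1 - δ), by positivity, fun Z hZ τ hτ => ?_⟩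
  have hZ0 : 0 < Z := by linarith
  have hZp : Z ^ (θ - 1 - δ) ≤ 1 := Real.rpow_le_one_of_one_le_of_nonpos hZ hneg
  have hX₁pos : 0 < X₁ ^ (θ - 1 - δ) := by positivity
  have hZpos : 0 < Z ^ (θ - 1 - δ) := by positivity
  rcases le_or_gt X₁ Z with h | h
  · refine le_trans ?_ (key Z h τ hτ)
    calc c * X₁ ^ (θ - 1 - δ) * Z ^ (θ - 1 - δ) ≤ c * 1 * Z ^ (θ - 1 - δ) :=
          mul_le_mul_of_nonneg_right (mul_le_mul_of_nonneg_left hX₁p hc0.le) hZpos.le
      _ = _ := by ring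
  · have h2 : τ₁ ≤ τ := hτ₁'.mono hτ fun n _ ⟨i, hi, hlt⟩ => ⟨i, hi, h.trans hlt⟩
    calc c * X₁ ^ (θ - 1 - δ) * Z ^ (θ - 1 - δ) ≤ c * X₁ ^ (θ - 1 - δ) * 1 :=
          mul_le_mul_of_nonneg_left hZp (by positivity)
      _ ≤ τ := by rw [mul_one]; exact h1.trans h2

end Run7.h95.IP
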