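import Pool.Agent.Run7.h283.MO.Unit
import Pool.Agent.R365.SH.Final
import Pool.Agent.TH876.Proj

/-!
# The points of the projective line, ordered by the primes where they meet a finite set of points
-/

set_option autoImplicit false

namespace Run7.h95.IP

open NumberField IsDedekindDomain Finset Filter Topology Pool.Agent.H691R3 Pool.Agent.TH876.Loc
open Run7.h283.MK Run7.h283.UE Run7.h283.MO

variable {K : Type} [Field K] [NumberField K] {q : ℕ}

/-- coordinates of the points of the line -/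
def co : Option K → K × K
  | none => (1, 0)
  | some x => (x, 1)

theorem co_ne (x : Option K) : co x ≠ 0 := by
  cases x with
  | none => exact fun h => one_ne_zero (congrArg Prod.fst h)
  | some x => exact fun h => one_ne_zero (congrArg Prod.snd h)

/-- the points of the line different from the `α l` -/
abbrev PP (α : Fin q → K × K) : Type :=
  {x : Option K // ∀ l, (co x).1 * (α l).2 - (co x).2 * (α l).1 ≠ 0}

/-- the primes where a point meets one of the `α l` -/
def meets (α : Fin q → K × K) (x : Option K) : Set (Pr K) :=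
  {v | ∃ l, lamA (fv v) (co x) (α l) ≠ 0}

variable {α : Fin q → K × K}

theorem meets_finite (hα0 : ∀ l, α l ≠ 0) (x : PP α) : (meets α x.1).Finite := by
  have h : meets α x.1 ⊆ ⋃ l : Fin q, {v : Pr K | lamA (fv v) (co x.1) (α l) ≠ 0} := by
    rintro v ⟨l, hl⟩
    simp only [Set.mem_iUnion]
    exact ⟨l, hl⟩
  exact (Set.finite_iUnion fun l => lamF_support_finite (co_ne _) (hα0 l) (x.2 l)).subset h

open Classical in
/-- the finite set of these primes -/
noncomputable def IS (α : Fin q → K × K) (x : Option K) : Finset (Pr K) :=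
  if h : (meets α x).Finite then h.toFinset else ∅

theorem mem_IS (hα0 : ∀ l, α l ≠ 0) (x : PP α) (v : Pr K) :
    v ∈ IS α x.1 ↔ ∃ l, lamA (fv v) (co x.1) (α l) ≠ 0 := by
  unfold IS
  rw [dif_pos (meets_finite hα0 x), Set.Finite.mem_toFinset]
  rfl

/-- a nonzero local height is at least `log Nv` -/
theorem le_lam {v : Pr K} {p r : K × K} (hp : p ≠ 0) (hr : r ≠ 0)
    (h : p.1 * r.2 - p.2 * r.1 ≠ 0) (hne : lamA (fv v) p r ≠ 0) :
    Real.log (Nv v) ≤ lamA (fv v) p r := by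
  obtain ⟨m, hm⟩ := lamF_discrete v hp hr h
  have hm1 : 1 ≤ m := by
    rcases Nat.eq_zero_or_pos m with h0 | h0
    · rw [hm, h0] at hne
      exact absurd (by simp) hne
    · exact h0
  rw [hm]
  have hm1' : (1 : ℝ) ≤ m := by exact_mod_cast hm1
  exact le_mul_of_one_le_left (log_Nv_pos v).le hm1'

theorem log_nn (s : Finset (Pr K)) : Real.log (nn s) = ∑ v ∈ s, Real.log (Nv v) := by
  unfold nn
  exact Real.log_prod fun v _ => (Nv_pos v).ne'

/-- the primes where two of the points coincide -/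
def BadP (α : Fin q → K × K) : Set (Pr K) := {v | ∃ l j, l ≠ j ∧ lamA (fv v) (α l) (α j) ≠ 0}

theorem badP_finite (hα0 : ∀ l, α l ≠ 0) (hα : ∀ i j, i ≠ j → wg (α i) (α j) ≠ 0) :
    (BadP α).Finite := by
  have h : BadP α ⊆ ⋃ l : Fin q, ⋃ j : Fin q, ⋃ _ : l ≠ j,
      {v : Pr K | lamA (fv v) (α l) (α j) ≠ 0} := by
    rintro v ⟨l, j, hlj, hv⟩
    simp only [Set.mem_iUnion]
    exact ⟨l, j, hlj, hv⟩
  refine Set.Finite.subset ?_ h
  refine Set.finite_iUnion fun l => Set.finite_iUnion fun j => Set.finite_iUnion fun hlj => ?_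
  exact lamF_support_finite (hα0 l) (hα0 j) (hα l j hlj)

/-- outside the bad primes a point meets at most one of the `α l` -/
theorem unique_meet (hα0 : ∀ l, α l ≠ 0) (hα : ∀ i j, i ≠ j → wg (α i) (α j) ≠ 0) (x : PP α)
    {v : Pr K} (hv : v ∉ BadP α) {l j : Fin q} (hl : lamA (fv v) (co x.1) (α l) ≠ 0)
    (hj : lamA (fv v) (co x.1) (α j) ≠ 0) : l = j := by
  by_contra hlj
  apply hv
  refine ⟨l, j, hlj, ?_⟩
  have h1 := le_lam (co_ne x.1) (hα0 l) (x.2 l) hl
  have h2 := le_lam (co_ne x.1) (hα0 j) (x.2 j) hj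
  rw [lamA_comm] at h1
  have hw : (α l).1 * (co x.1).2 - (α l).2 * (co x.1).1 ≠ 0 := by
    intro h
    exact x.2 l (by linear_combination -h)
  have h3 := lamA_ultra (fv v) (fv_na v) (hα0 l) (co_ne x.1) (hα0 j)
    (by
      have := hα l j hlj
      unfold wg at this
      exact this) hw (x.2 j) _ h1 h2
  have h4 := log_Nv_pos v
  intro h5
  rw [h5] at h3
  linarith

open Classical in
theorem NTc_le (hα0 : ∀ l, α l ≠ 0) (hα : ∀ i j, i ≠ j → wg (α i) (α j) ≠ 0) (y : K)
    (hy : ∀ l, (co (some y)).1 * (α l).2 - (co (some y)).2 * (α l).1 ≠ 0) :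
    NTc (BadP α) α y ≤ Real.log (nn (IS α (some y))) := by
  obtain ⟨x, hx⟩ : ∃ x : PP α, x = ⟨some y, hy⟩ := ⟨_, rfl⟩
  have hmem := mem_IS hα0 x
  rw [hx] at hmem
  have hco : co (some y) = aff y := rfl
  have hnn : ∀ (v : Pr K) (l : Fin q), 0 ≤ lamA (fv v) (aff y) (α l) := fun v l =>
    lamF_nonneg v (aff_ne_zero y) (hα0 l) (hy l)
  unfold NTc
  rw [log_nn]
  rw [finsum_eq_sum_of_support_subset (s := IS α (some y))]
  · refine Finset.sum_le_sum fun v hv => ?_
    rw [finsum_eq_if]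
    split_ifs with hvb
    · exact (log_Nv_pos v).le
    · obtain ⟨l, hl⟩ := (hmem v).1 hv
      rw [Finset.sum_eq_single l]
      · exact min_le_right _ _
      · intro j _ hjl
        by_cases hj : lamA (fv v) (aff y) (α j) = 0
        · rw [hj, min_eq_left (log_Nv_pos v).le]
        · exact absurd (unique_meet hα0 hα ⟨some y, hy⟩ hvb hj hl) hjl
      · intro h
        exact absurd (Finset.mem_univ l) h
  · intro v hv
    rw [Function.mem_support, finsum_eq_if] at hv
    by_contra hcon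
    apply hv
    split_ifs with hvb
    · rfl
    · refine Finset.sum_eq_zero fun l _ => ?_
      have h1 : lamA (fv v) (aff y) (α l) = 0 := by
        by_contra h
        exact hcon ((hmem v).2 ⟨l, h⟩)
      rw [h1, min_eq_left (log_Nv_pos v).le]

open Classical in
theorem le_NTc (hα0 : ∀ l, α l ≠ 0) (y : K)
    (hy : ∀ l, (co (some y)).1 * (α l).2 - (co (some y)).2 * (α l).1 ≠ 0) :
    Real.log (nn (IS α (some y))) ≤ NTc ∅ α y := by
  have hmem := mem_IS hα0 (⟨some y, hy⟩ : PP α)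
  have hnn : ∀ (v : Pr K) (l : Fin q), 0 ≤ lamA (fv v) (aff y) (α l) := fun v l =>
    lamF_nonneg v (aff_ne_zero y) (hα0 l) (hy l)
  unfold NTc
  rw [log_nn]
  rw [finsum_eq_sum_of_support_subset (s := IS α (some y))]
  · refine Finset.sum_le_sum fun v hv => ?_
    rw [finsum_eq_if, if_pos (Set.notMem_empty v)]
    obtain ⟨l, hl⟩ := (hmem v).1 hv
    have h1 := le_lam (aff_ne_zero y) (hα0 l) (hy l) hl
    calc Real.log (Nv v) = min (lamA (fv v) (aff y) (α l)) (Real.log (Nv v)) :=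
          (min_eq_right h1).symm
      _ ≤ _ := Finset.single_le_sum
          (f := fun l => min (lamA (fv v) (aff y) (α l)) (Real.log (Nv v)))
          (fun j _ => le_min (hnn v j) (log_Nv_pos v).le) (Finset.mem_univ l)
  · intro v hv
    rw [Function.mem_support, finsum_eq_if, if_pos (Set.notMem_empty v)] at hv
    by_contra hcon
    apply hv
    refine Finset.sum_eq_zero fun l _ => ?_
    have h1 : lamA (fv v) (aff y) (α l) = 0 := by
      by_contra h
      exact hcon ((hmem v).2 ⟨l, h⟩)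
    rw [h1, min_eq_left (log_Nv_pos v).le]

/-- **the number of the points from above** -/
theorem count_upper (hq : 3 ≤ q) (hα0 : ∀ l, α l ≠ 0)
    (hα : ∀ i j, i ≠ j → wg (α i) (α j) ≠ 0) :
    ∃ c₂ : ℝ, 0 < c₂ ∧ ∀ X : ℝ, 1 ≤ X → ∀ F : Finset (PP α), (∀ x ∈ F, nn (IS α x.1) ≤ X) →
      (F.card : ℝ) ≤ c₂ * X ^ (2 / (q : ℝ)) := by
  classical
  have hqR : (3 : ℝ) ≤ q := by exact_mod_cast hq
  have hq0 : (0 : ℝ) < q := by linarith
  obtain ⟨C, ν, hC, hν, h⟩ := Pool.Agent.R365.SH.all_upper hq (BadP α)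
    (badP_finite hα0 hα) α hα0 hα 0 le_rfl (by
      rw [sub_pos, div_lt_one hq0]
      linarith)
  refine ⟨2 * C + 1, by positivity, fun X hX F hF => ?_⟩
  have hX0 : 0 < X := by linarith
  obtain ⟨E, hE⟩ : ∃ E : Finset K, E = (F.image Subtype.val).eraseNone := ⟨_, rfl⟩
  have hmemE : ∀ y, y ∈ E ↔ ∃ x ∈ F, x.1 = some y := by
    intro y
    rw [hE, Finset.mem_eraseNone, Finset.mem_image]
  have hcard : (F.card : ℝ) ≤ E.card + 1 := by
    have h1 : F.image Subtype.val ⊆ E.insertNone := by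
      intro o ho
      obtain ⟨x, hx, rfl⟩ := Finset.mem_image.1 ho
      rw [Finset.mem_insertNone]
      intro y hy
      exact (hmemE y).2 ⟨x, hx, Option.mem_def.1 hy⟩
    have h2 := Finset.card_le_card h1
    rw [Finset.card_image_of_injective _ Subtype.val_injective, Finset.card_insertNone] at h2
    exact_mod_cast h2
  have hL : 0 ≤ Real.log X := Real.log_nonneg hX
  have h1 := h (Real.log X) (-Real.log X) hL E (fun y hy => by
    obtain ⟨x, hx, hxy⟩ := (hmemE y).1 hy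
    have hoff : ∀ l, (co (some y)).1 * (α l).2 - (co (some y)).2 * (α l).1 ≠ 0 := by
      rw [← hxy]
      exact x.2
    have h2 : NTc (BadP α) α y ≤ Real.log X := by
      refine (NTc_le hα0 hα y hoff).trans ?_
      rw [← hxy]
      exact Real.log_le_log (nn_pos _) (hF x hx)
    refine ⟨hoff, h2, ?_⟩
    have h3 : 0 ≤ q * hr (aff y) := mul_nonneg hq0.le (hr_aff_nonneg y)
    linarith)
  have e1 : Real.exp (2 / q * Real.log X - 0 * -Real.log X) = X ^ (2 / (q : ℝ)) := by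
    rw [zero_mul, sub_zero, mul_comm, Real.exp_mul, Real.exp_log hX0]
  have e2 : Real.exp ((2 / q - ν) * Real.log X) ≤ X ^ (2 / (q : ℝ)) := by
    rw [mul_comm, Real.exp_mul, Real.exp_log hX0]
    exact Real.rpow_le_rpow_of_exponent_le hX (by linarith)
  have e3 : 1 ≤ X ^ (2 / (q : ℝ)) := Real.one_le_rpow hX (by positivity)
  rw [e1] at h1
  nlinarith

/-- **the number of the points from below** -/
theorem count_lower (hq : 3 ≤ q) (hα0 : ∀ l, α l ≠ 0)
    (hα : ∀ i j, i ≠ j → wg (α i) (α j) ≠ 0) :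
    ∃ c₁ X₀ : ℝ, 0 < c₁ ∧ 1 ≤ X₀ ∧ ∀ X : ℝ, X₀ ≤ X → ∃ F : Finset (PP α),
      (∀ x ∈ F, nn (IS α x.1) ≤ X) ∧ c₁ * X ^ (2 / (q : ℝ)) ≤ F.card := by
  classical
  obtain ⟨c₁, X₀, hc₁, hX₀, h⟩ := Pool.Agent.R365.SH.low_all hq ∅ α hα0 hα
  have hd : (0 : ℝ) < Module.finrank ℚ K := by
    exact_mod_cast (Module.finrank_pos (R := ℚ) (M := K))
  obtain ⟨d, hdd⟩ : ∃ d : ℝ, d = (Module.finrank ℚ K : ℝ) := ⟨_, rfl⟩
  rw [← hdd] at hd
  simp only [← hdd] at h
  refine ⟨c₁, X₀ ^ d, hc₁, Real.one_le_rpow hX₀ hd.le, fun X hX => ?_⟩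
  have hX1 : 1 ≤ X := (Real.one_le_rpow hX₀ hd.le).trans hX
  have hX0 : 0 < X := by linarith
  have hY : X₀ ≤ X ^ (1 / d) := by
    have h1 := Real.rpow_le_rpow (by positivity) hX (z := 1 / d) (by positivity)
    rwa [← Real.rpow_mul (by linarith), mul_one_div_cancel hd.ne', Real.rpow_one] at h1
  obtain ⟨E, hE, hcard⟩ := h _ hY
  have hoff : ∀ y ∈ E, ∀ l, (co (some y)).1 * (α l).2 - (co (some y)).2 * (α l).1 ≠ 0 :=
    fun y hy => (hE y hy).1
  refine ⟨E.attach.image fun y => (⟨some y.1, hoff y.1 y.2⟩ : PP α), ?_, ?_⟩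
  · intro x hx
    obtain ⟨y, -, rfl⟩ := Finset.mem_image.1 hx
    have h1 := (le_NTc hα0 y.1 (hoff y.1 y.2)).trans (hE y.1 y.2).2.1
    rw [Real.log_rpow hX0, ← mul_assoc, mul_one_div_cancel hd.ne', one_mul] at h1
    exact (Real.log_le_log_iff (nn_pos _) hX0).1 h1
  · rw [Finset.card_image_of_injective, Finset.card_attach]
    · refine le_trans (le_of_eq ?_) hcard
      rw [← Real.rpow_mul hX0.le]
      congr 2
      field_simp
    · intro y z hyz
      have h1 := congrArg Subtype.val hyz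
      exact Subtype.ext (Option.some.inj h1)

/-- the wedge of two points -/
theorem lam_zero {v : Pr K} {p r : K × K} (hp : p ≠ 0) (hr : r ≠ 0)
    (h : p.1 * r.2 - p.2 * r.1 ≠ 0) (h0 : lamA (fv v) p r = 0) :
    fv v (p.1 * r.2 - p.2 * r.1) = max (fv v p.1) (fv v p.2) * max (fv v r.1) (fv v r.2) := by
  have h1 := max_pos (fv v) hp
  have h2 := max_pos (fv v) hr
  have h3 := (fv v).pos h
  unfold lamA at h0
  have h4 : max (fv v p.1) (fv v p.2) * max (fv v r.1) (fv v r.2) /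
      fv v (p.1 * r.2 - p.2 * r.1) = 1 := by
    have h5 : 0 < max (fv v p.1) (fv v p.2) * max (fv v r.1) (fv v r.2) /
        fv v (p.1 * r.2 - p.2 * r.1) := by positivity
    rw [← Real.exp_log h5, h0, Real.exp_zero]
  rw [div_eq_one_iff_eq h3.ne'] at h4
  exact h4.symm

/-- **points whose primes lie in a given finite set** -/
theorem unit_bound (hq : 3 ≤ q) (hα0 : ∀ l, α l ≠ 0)
    (hα : ∀ i j, i ≠ j → wg (α i) (α j) ≠ 0) :
    ∃ C : ℝ, 1 ≤ C ∧ ∀ T : Finset (Pr K), ∀ F : Finset (PP α), (∀ x ∈ F, IS α x.1 ⊆ T) →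
      (F.card : ℝ) ≤ C ^ (T.card + 1) := by
  classical
  obtain ⟨C, hC, h⟩ := pt_unit K
  have hbad := badP_finite hα0 hα
  obtain ⟨B, hB⟩ : ∃ B : Finset (Pr K), B = hbad.toFinset := ⟨_, rfl⟩
  obtain ⟨i0, hi0⟩ : ∃ i : Fin q, i = ⟨0, by omega⟩ := ⟨_, rfl⟩
  obtain ⟨i1, hi1⟩ : ∃ i : Fin q, i = ⟨1, by omega⟩ := ⟨_, rfl⟩
  obtain ⟨i2, hi2⟩ : ∃ i : Fin q, i = ⟨2, by omega⟩ := ⟨_, rfl⟩
  have h01 : i0 ≠ i1 := by rw [hi0, hi1]; simp
  have h12 : i1 ≠ i2 := by rw [hi1, hi2]; simp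
  have h20 : i2 ≠ i0 := by rw [hi2, hi0]; simp
  have hw : ∀ i j, i ≠ j → (α i).1 * (α j).2 - (α i).2 * (α j).1 ≠ 0 := fun i j hij => hα i j hij
  obtain ⟨u, hu⟩ : ∃ u : PP α → Fin 3 → K, u = fun x =>
      ![((co x.1).1 * (α i0).2 - (co x.1).2 * (α i0).1) *
          ((α i1).1 * (α i2).2 - (α i1).2 * (α i2).1),
        ((co x.1).1 * (α i1).2 - (co x.1).2 * (α i1).1) *
          ((α i2).1 * (α i0).2 - (α i2).2 * (α i0).1),
        ((co x.1).1 * (α i2).2 - (co x.1).2 * (α i2).1) *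
          ((α i0).1 * (α i1).2 - (α i0).2 * (α i1).1)] := ⟨_, rfl⟩
  have hu0 : ∀ x, u x 0 = ((co x.1).1 * (α i0).2 - (co x.1).2 * (α i0).1) *
          ((α i1).1 * (α i2).2 - (α i1).2 * (α i2).1) := fun x => by rw [hu]; rfl
  have hu1 : ∀ x, u x 1 = ((co x.1).1 * (α i1).2 - (co x.1).2 * (α i1).1) *
          ((α i2).1 * (α i0).2 - (α i2).2 * (α i0).1) := fun x => by rw [hu]; rfl
  have hu2 : ∀ x, u x 2 = ((co x.1).1 * (α i2).2 - (co x.1).2 * (α i2).1) *
          ((α i0).1 * (α i1).2 - (α i0).2 * (α i1).1) := fun x => by rw [hu]; rfl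
  have hsum : ∀ x, u x 0 + u x 1 + u x 2 = 0 := by
    intro x
    rw [hu0, hu1, hu2]
    ring
  have hne0 : ∀ x, u x 0 ≠ 0 := fun x => by
    rw [hu0]
    exact mul_ne_zero (x.2 i0) (hw i1 i2 h12)
  have hne1 : ∀ x, u x 1 ≠ 0 := fun x => by
    rw [hu1]
    exact mul_ne_zero (x.2 i1) (hw i2 i0 h20)
  have hne2 : ∀ x, u x 2 ≠ 0 := fun x => by
    rw [hu2]
    exact mul_ne_zero (x.2 i2) (hw i0 i1 h01)
  have hne : ∀ x, u x 0 * u x 1 * u x 2 ≠ 0 := fun x =>
    mul_ne_zero (mul_ne_zero (hne0 x) (hne1 x)) (hne2 x)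
  obtain ⟨g, hg⟩ : ∃ g : PP α → PT K, ∀ x, (g x).1 = u x 0 / u x 1 :=
    ⟨fun x => ⟨u x 0 / u x 1, pt_of_triple (hsum x) (hne x)⟩, fun x => rfl⟩
  have hginj : Function.Injective g := by
    intro x y hxy
    have h1 : u x 0 / u x 1 = u y 0 / u y 1 := by rw [← hg, ← hg, hxy]
    rw [div_eq_div_iff (hne1 x) (hne1 y), hu0, hu0, hu1, hu1] at h1
    have h2 : ((co x.1).1 * (co y.1).2 - (co x.1).2 * (co y.1).1) *
        (((α i0).1 * (α i1).2 - (α i0).2 * (α i1).1) *
        (((α i1).1 * (α i2).2 - (α i1).2 * (α i2).1) *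
          ((α i2).1 * (α i0).2 - (α i2).2 * (α i0).1))) = 0 := by
      linear_combination h1
    have h3 : (co x.1).1 * (co y.1).2 - (co x.1).2 * (co y.1).1 = 0 := by
      rcases mul_eq_zero.1 h2 with h3 | h3
      · exact h3
      · exact absurd h3 (mul_ne_zero (hw _ _ h01) (mul_ne_zero (hw _ _ h12) (hw _ _ h20)))
    apply Subtype.ext
    obtain ⟨x, hx⟩ := x
    obtain ⟨y, hy⟩ := y
    cases x with
    | none =>
      cases y with
      | none => rfl
      | some y => simp [co] at h3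
    | some x =>
      cases y with
      | none => simp [co] at h3
      | some y =>
        simp only [co, mul_one, one_mul] at h3
        have : x = y := by linear_combination h3
        exact congrArg some this
  have hsp : ∀ x : PP α, sp (g x).1 ⊆ IS α x.1 ∪ B := by
    intro x v hv
    rw [hg, sp_of_triple (hsum x) (hne x)] at hv
    by_contra hcon
    rw [Finset.mem_union, not_or] at hcon
    obtain ⟨h1, h2⟩ := hcon
    rw [mem_IS hα0] at h1
    push Not at h1
    rw [hB, Set.Finite.mem_toFinset] at h2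
    have h3 : ∀ i j, i ≠ j → lamA (fv v) (α i) (α j) = 0 := by
      intro i j hij
      by_contra h
      exact h2 ⟨i, j, hij, h⟩
    have hx : ∀ l, fv v ((co x.1).1 * (α l).2 - (co x.1).2 * (α l).1) =
        max (fv v (co x.1).1) (fv v (co x.1).2) * max (fv v (α l).1) (fv v (α l).2) :=
      fun l => lam_zero (co_ne x.1) (hα0 l) (x.2 l) (h1 l)
    have hij : ∀ i j, i ≠ j → fv v ((α i).1 * (α j).2 - (α i).2 * (α j).1) =
        max (fv v (α i).1) (fv v (α i).2) * max (fv v (α j).1) (fv v (α j).2) :=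
      fun i j h => lam_zero (hα0 i) (hα0 j) (hw i j h) (h3 i j h)
    apply hv
    have f0 : fv v (u x 0) = fv v (u x 1) := by
      rw [hu0, hu1, (fv v).map_mul, (fv v).map_mul, hx, hx, hij _ _ h12, hij _ _ h20]
      ring
    have f1 : fv v (u x 1) = fv v (u x 2) := by
      rw [hu1, hu2, (fv v).map_mul, (fv v).map_mul, hx, hx, hij _ _ h20, hij _ _ h01]
      ring
    exact ⟨f0, f1⟩
  refine ⟨C ^ (B.card + 1), one_le_pow₀ hC, fun T F hF => ?_⟩
  have h1 := h (T ∪ B) (F.image g) (by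
    intro y hy
    obtain ⟨x, hx, rfl⟩ := Finset.mem_image.1 hy
    exact (hsp x).trans (Finset.union_subset_union_left (hF x hx)))
  rw [Finset.card_image_of_injective _ hginj] at h1
  refine h1.trans ?_
  rw [← pow_mul]
  refine pow_le_pow_right₀ hC ?_
  have h2 := Finset.card_union_le T B
  nlinarith

end Run7.h95.IP
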