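import Pool.Agent.Run7.h95.IP.Gen
import Pool.Agent.Run7.h95.IP.Line

/-!
# Members a large part of whose primes divide a random ideal
-/

set_option autoImplicit false

namespace Run7.h95.IP

open NumberField IsDedekindDomain Finset Filter Topology Pool.Agent.H691R3 Pool.Agent.TH876.Loc
open Run7.h283.MK Run7.h283.UE Run7.h283.MO

variable {K : Type} [Field K] [NumberField K] {ι : Type}

/-- a member and a part of its primes, of relative size more than `ρ` -/
def Part (S : ι → Finset (Pr K)) (ρ : ℝ) : Type :=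
  {p : ι × Finset (Pr K) // p.2 ⊆ S p.1 ∧ nn (S p.1) ^ ρ < nn p.2}

/-- the part -/
def pS (S : ι → Finset (Pr K)) (ρ : ℝ) (p : Part S ρ) : Finset (Pr K) := p.1.2

open Classical in
/-- the members such that the primes dividing `n` are a part of relative size more than `ρ` -/
def VV (S : ι → Finset (Pr K)) (ρ : ℝ) (n : Ideal (𝓞 K)) : Set ι :=
  {i | nn (S i) ^ ρ < nn ((S i).filter fun v => v.asIdeal ∣ n)}

theorem VV_eq (S : ι → Finset (Pr K)) (ρ : ℝ) (n : Ideal (𝓞 K)) :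
    VV S ρ n = (fun p : Part S ρ => p.1.1) '' U (pS S ρ) n := by
  classical
  ext i
  constructor
  · intro h
    refine ⟨⟨(i, (S i).filter fun v => v.asIdeal ∣ n), Finset.filter_subset _ _, ?_⟩, ?_, rfl⟩
    · unfold VV at h
      rw [Set.mem_ofPred_eq] at h
      convert h
    · intro v hv
      exact (Finset.mem_filter.1 hv).2
  · rintro ⟨⟨⟨j, B⟩, hB, hlt⟩, hU, rfl⟩
    refine lt_of_lt_of_le hlt (nn_mono ?_)
    intro v hv
    exact Finset.mem_filter.2 ⟨hB hv, hU v hv⟩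

variable {S : ι → Finset (Pr K)} {θ c₂ : ℝ}

theorem part_count (hθ : 0 ≤ θ) (hc₂ : 0 < c₂)
    (hup : ∀ X : ℝ, 1 ≤ X → ∀ F : Finset ι, (∀ x ∈ F, nn (S x) ≤ X) →
      (F.card : ℝ) ≤ c₂ * X ^ θ) {ρ δ : ℝ} (hρ : 0 < ρ) (hδ : 0 < δ) :
    ∃ D : ℝ, 0 < D ∧ ∀ X : ℝ, 1 ≤ X → ∀ F : Finset (Part S ρ), (∀ p ∈ F, nn (pS S ρ p) ≤ X) →
      (F.card : ℝ) ≤ D * X ^ ((θ + δ) / ρ) := by
  classical
  obtain ⟨D, hD, hpow⟩ := pow_card (K := K) (C := 2) one_le_two hδ
  refine ⟨c₂ * D, by positivity, fun X hX F hF => ?_⟩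
  have hX0 : 0 < X := by linarith
  have hY1 : 1 ≤ X ^ (1 / ρ) := Real.one_le_rpow hX (by positivity)
  obtain ⟨G, hG⟩ : ∃ G : Finset ι, G = F.image fun p => p.1.1 := ⟨_, rfl⟩
  have hsize : ∀ i ∈ G, nn (S i) ≤ X ^ (1 / ρ) := by
    intro i hi
    rw [hG, Finset.mem_image] at hi
    obtain ⟨p, hp, rfl⟩ := hi
    have h1 : nn (S p.1.1) ^ ρ ≤ X := (p.2.2.le).trans (hF p hp)
    have h2 := Real.rpow_le_rpow (by positivity [nn_pos (S p.1.1)]) h1
      (z := 1 / ρ) (by positivity)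
    rwa [← Real.rpow_mul (nn_pos _).le, mul_one_div_cancel hρ.ne', Real.rpow_one] at h2
  have h1 : (F.card : ℝ) = ∑ i ∈ G, ((F.filter fun p => p.1.1 = i).card : ℝ) := by
    rw [hG, Finset.card_eq_sum_card_image (fun p : Part S ρ => p.1.1) F]
    push_cast
    rfl
  have h2 : ∀ i ∈ G, ((F.filter fun p => p.1.1 = i).card : ℝ) ≤ D * X ^ (δ / ρ) := by
    intro i hi
    have h3 : (F.filter fun p => p.1.1 = i).card ≤ ((S i).powerset).card := by
      refine Finset.card_le_card_of_injOn (fun p => p.1.2) ?_ ?_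
      · intro p hp
        have h4 := (Finset.mem_filter.1 (Finset.mem_coe.1 hp)).2
        rw [Finset.mem_coe, Finset.mem_powerset, ← h4]
        exact p.2.1
      · intro p hp p' hp' h
        have h4 := (Finset.mem_filter.1 (Finset.mem_coe.1 hp)).2
        have h5 := (Finset.mem_filter.1 (Finset.mem_coe.1 hp')).2
        exact Subtype.ext (Prod.ext (h4.trans h5.symm) h)
    have h4 : ((F.filter fun p => p.1.1 = i).card : ℝ) ≤ 2 ^ (S i).card := by
      rw [Finset.card_powerset] at h3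
      exact_mod_cast h3
    refine h4.trans ((hpow (S i)).trans ?_)
    refine mul_le_mul_of_nonneg_left ?_ (by linarith)
    have h5 := Real.rpow_le_rpow (nn_pos _).le (hsize i hi) hδ.le
    rw [← Real.rpow_mul hX0.le, one_div_mul_eq_div] at h5
    exact h5
  have h3 : (G.card : ℝ) ≤ c₂ * X ^ (θ / ρ) := by
    have h4 := hup _ hY1 G hsize
    rw [← Real.rpow_mul hX0.le] at h4
    convert h4 using 3
    ring
  rw [h1]
  refine (Finset.sum_le_card_nsmul _ _ _ h2).trans ?_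
  rw [nsmul_eq_mul]
  have h4 : 0 ≤ D * X ^ (δ / ρ) := by positivity
  refine (mul_le_mul_of_nonneg_right h3 h4).trans (le_of_eq ?_)
  have h5 : X ^ ((θ + δ) / ρ) = X ^ (θ / ρ) * X ^ (δ / ρ) := by
    rw [← Real.rpow_add hX0]
    congr 1
    ring
  rw [h5]
  ring

theorem part_summable (hθ : 0 ≤ θ) (hc₂ : 0 < c₂)
    (hup : ∀ X : ℝ, 1 ≤ X → ∀ F : Finset ι, (∀ x ∈ F, nn (S x) ≤ X) →
      (F.card : ℝ) ≤ c₂ * X ^ θ) {ρ : ℝ} (hρ : θ < ρ) :
    Summable fun p : Part S ρ => (nn (pS S ρ p))⁻¹ := by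
  have hρ0 : 0 < ρ := lt_of_le_of_lt hθ hρ
  obtain ⟨D, hD, h⟩ := part_count hθ hc₂ hup hρ0 (δ := (ρ - θ) / 2) (by linarith)
  refine summable_of_count _ (fun p => one_le_nn _) hD ?_ h
  rw [div_lt_one hρ0]
  linarith

open Classical in
theorem part_tail (hθ : 0 ≤ θ) (hc₂ : 0 < c₂)
    (hup : ∀ X : ℝ, 1 ≤ X → ∀ F : Finset ι, (∀ x ∈ F, nn (S x) ≤ X) →
      (F.card : ℝ) ≤ c₂ * X ^ θ) {ρ : ℝ} (hρ : θ < ρ) {δ : ℝ} (hδ : 0 < δ) :
    ∃ C : ℝ, ∀ Z N : ℝ, 1 ≤ Z → 0 ≤ N →
      (((IF K N).filter fun n => ∃ i ∈ VV S ρ n, Z < nn (S i)).card : ℝ) ≤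
        C * Z ^ (-(ρ - θ) + δ) * N := by
  have hρ0 : 0 < ρ := lt_of_le_of_lt hθ hρ
  obtain ⟨δ', hδ'⟩ : ∃ δ' : ℝ, δ' = min δ ((ρ - θ) / 2) := ⟨_, rfl⟩
  have hd1 : 0 < δ' := by
    rw [hδ']
    exact lt_min hδ (by linarith)
  have hd2 : δ' ≤ δ := by
    rw [hδ']
    exact min_le_left _ _
  have hd3 : δ' ≤ (ρ - θ) / 2 := by
    rw [hδ']
    exact min_le_right _ _
  obtain ⟨D, hD, h⟩ := part_count hθ hc₂ hup hρ0 hd1
  have hlt : (θ + δ') / ρ < 1 := by
    rw [div_lt_one hρ0]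
    linarith
  have hS1 := summable_of_count _ (fun p => one_le_nn _) hD hlt h
  obtain ⟨C₁, hC₁, htail⟩ := power_tail (fun p : Part S ρ => nn (pS S ρ p)) hD hlt h
  obtain ⟨C', hC', hbad⟩ := bad_card K
  refine ⟨C' * C₁, fun Z N hZ hN => ?_⟩
  have hZ0 : 0 < Z := by linarith
  have h1 := hbad (pS S ρ) hS1 (Z ^ ρ) (C₁ * (Z ^ ρ) ^ ((θ + δ') / ρ - 1)) (fun t ht =>
    htail (Z ^ ρ) (Real.one_le_rpow hZ hρ0.le) t fun i hi => (ht i hi).le) N hN
  have h2 : ((IF K N).filter fun n => ∃ i ∈ VV S ρ n, Z < nn (S i)) ⊆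
      (IF K N).filter fun n => ∃ i ∈ U (pS S ρ) n, Z ^ ρ < nn (pS S ρ i) := by
    intro n hn
    obtain ⟨h3, i, hi, hZi⟩ := Finset.mem_filter.1 hn
    refine Finset.mem_filter.2 ⟨h3, ?_⟩
    rw [VV_eq] at hi
    obtain ⟨p, hp, rfl⟩ := hi
    exact ⟨p, hp, (Real.rpow_lt_rpow hZ0.le hZi hρ0).trans p.2.2⟩
  have h3 : (Z ^ ρ) ^ ((θ + δ') / ρ - 1) ≤ Z ^ (-(ρ - θ) + δ) := by
    rw [← Real.rpow_mul hZ0.le]
    refine Real.rpow_le_rpow_of_exponent_le hZ ?_
    have : ρ * ((θ + δ') / ρ - 1) = θ + δ' - ρ := by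
      field_simp
    rw [this]
    linarith
  refine le_trans (by exact_mod_cast Finset.card_le_card h2) (h1.trans ?_)
  refine mul_le_mul_of_nonneg_right ?_ hN
  rw [mul_assoc]
  exact mul_le_mul_of_nonneg_left (mul_le_mul_of_nonneg_left h3 hC₁.le) hC'.le

theorem VV_finite (hS1 : ∀ X : ℝ, {i | nn (S i) ≤ X}.Finite) {ρ : ℝ} (hρ : 0 < ρ)
    {n : Ideal (𝓞 K)} (hn : n ≠ ⊥) : (VV S ρ n).Finite := by
  refine (hS1 ((Ideal.absNorm n : ℝ) ^ (1 / ρ))).subset fun i hi => ?_
  rw [VV_eq] at hi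
  obtain ⟨p, hp, rfl⟩ := hi
  have h1 : nn (pS S ρ p) ≤ (Ideal.absNorm n : ℝ) := nn_le_of_mem hn hp
  have h2 : nn (S p.1.1) ^ ρ ≤ (Ideal.absNorm n : ℝ) := p.2.2.le.trans h1
  have h3 := Real.rpow_le_rpow (by positivity [nn_pos (S p.1.1)]) h2
    (z := 1 / ρ) (by positivity)
  rwa [← Real.rpow_mul (nn_pos _).le, mul_one_div_cancel hρ.ne', Real.rpow_one] at h3

open Classical in
/-- **the limit law of the random set of members** -/
theorem VV_law {ρ : ℝ} (hS : Summable fun p : Part S ρ => (nn (pS S ρ p))⁻¹) :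
    ∃ w : Finset ι → ℝ, (∀ F, 0 ≤ w F) ∧ HasSum w 1 ∧
      ∀ Φ : Set (Set ι), HasDens K (fun n => VV S ρ n ∈ Φ)
        (∑' F : Finset ι, if (F : Set ι) ∈ Φ then w F else 0) := by
  obtain ⟨d, hd, hlaw⟩ := law hS
  obtain ⟨g, hg⟩ : ∃ g : Finset (Part S ρ) → Finset ι, g = fun F => F.image fun p => p.1.1 :=
    ⟨_, rfl⟩
  have hgc : ∀ F : Finset (Part S ρ),
      ((g F : Finset ι) : Set ι) = (fun p : Part S ρ => p.1.1) '' (F : Set (Part S ρ)) := by
    intro F
    rw [hg]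
    exact Finset.coe_image
  have hd0 : ∀ F, 0 ≤ d F := fun F => (hd F).nonneg
  have hdsum : HasSum d 1 := by
    obtain ⟨δ, h1, h2⟩ := hlaw Set.univ
    have h3 : δ = 1 := h1.unique (hasDens_true.congr fun n _ => by simp)
    rw [h3] at h2
    simpa using h2
  -- the weights
  obtain ⟨w, hw⟩ : ∃ w : Finset ι → ℝ, w = fun F => ∑' G : Finset (Part S ρ),
      if g G = F then d G else 0 := ⟨_, rfl⟩
  have hsw : ∀ F : Finset ι, Summable fun G : Finset (Part S ρ) => if g G = F then d G else 0 := by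
    intro F
    refine Summable.of_nonneg_of_le (fun G => ?_) (fun G => ?_) hdsum.summable
    · split_ifs
      · exact hd0 G
      · exact le_rfl
    · split_ifs
      · exact le_rfl
      · exact hd0 G
  have key : ∀ Φ : Set (Set ι), HasSum (fun F : Finset ι => if (F : Set ι) ∈ Φ then w F else 0)
      (∑' G : Finset (Part S ρ), if ((g G : Finset ι) : Set ι) ∈ Φ then d G else 0) := by
    intro Φ
    obtain ⟨f, hf⟩ : ∃ f : Finset (Part S ρ) × Finset ι → ℝ, f = fun x =>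
        if g x.1 = x.2 then (if (x.2 : Set ι) ∈ Φ then d x.1 else 0) else 0 := ⟨_, rfl⟩
    have hf0 : 0 ≤ f := by
      intro x
      rw [hf]
      simp only [Pi.zero_apply]
      split_ifs
      · exact hd0 _
      · exact le_rfl
      · exact le_rfl
    have hin : ∀ G : Finset (Part S ρ), HasSum (fun F : Finset ι => f (G, F))
        (if ((g G : Finset ι) : Set ι) ∈ Φ then d G else 0) := by
      intro G
      have h1 : (fun F : Finset ι => f (G, F)) = fun F =>
          if F = g G then (if ((g G : Finset ι) : Set ι) ∈ Φ then d G else 0) else 0 := by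
        funext F
        rw [hf]
        simp only
        by_cases h : g G = F
        · rw [if_pos h, if_pos h.symm, h]
        · rw [if_neg h, if_neg (Ne.symm h)]
      rw [h1]
      exact hasSum_ite_eq (g G) _
    have hs1 : Summable fun G : Finset (Part S ρ) =>
        if ((g G : Finset ι) : Set ι) ∈ Φ then d G else 0 := by
      refine Summable.of_nonneg_of_le (fun G => ?_) (fun G => ?_) hdsum.summable
      · split_ifs
        · exact hd0 G
        · exact le_rfl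
      · split_ifs
        · exact le_rfl
        · exact hd0 G
    have hfs : Summable f := by
      rw [summable_prod_of_nonneg hf0]
      refine ⟨fun G => (hin G).summable, ?_⟩
      refine hs1.congr fun G => ?_
      exact ((hin G).tsum_eq).symm
    have h1 : HasSum f (∑' G : Finset (Part S ρ),
        if ((g G : Finset ι) : Set ι) ∈ Φ then d G else 0) := by
      have h2 := hfs.hasSum
      rw [hfs.tsum_prod' fun G => (hin G).summable] at h2
      convert h2 using 2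
      funext G
      exact ((hin G).tsum_eq).symm
    have h2 := (Equiv.prodComm (Finset ι) (Finset (Part S ρ))).hasSum_iff.2 h1
    refine h2.prod_fiberwise fun F => ?_
    have h3 : (fun G : Finset (Part S ρ) =>
        (f ∘ (Equiv.prodComm (Finset ι) (Finset (Part S ρ)))) (F, G)) =
        fun G => (if (F : Set ι) ∈ Φ then (1 : ℝ) else 0) * (if g G = F then d G else 0) := by
      funext G
      rw [hf]
      simp only [Function.comp_apply, Equiv.prodComm_apply, Prod.swap_prod_mk]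
      by_cases h5 : g G = F
      · by_cases h6 : (F : Set ι) ∈ Φ
        · simp [h5, h6]
        · simp [h5, h6]
      · by_cases h6 : (F : Set ι) ∈ Φ
        · simp [h5, h6]
        · simp [h5, h6]
    rw [h3]
    have h4 := (hsw F).hasSum.mul_left (if (F : Set ι) ∈ Φ then (1 : ℝ) else 0)
    have h5 : (if (F : Set ι) ∈ Φ then w F else 0) = (if (F : Set ι) ∈ Φ then (1 : ℝ) else 0) *
        ∑' G : Finset (Part S ρ), if g G = F then d G else 0 := by
      rw [hw]
      by_cases h6 : (F : Set ι) ∈ Φ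
      · simp only [if_pos h6, one_mul]
      · simp only [if_neg h6, zero_mul]
    rw [h5]
    exact h4
  refine ⟨w, fun F => ?_, ?_, fun Φ => ?_⟩
  · rw [hw]
    exact tsum_nonneg fun G => by
      split_ifs
      · exact hd0 G
      · exact le_rfl
  · have h1 := key Set.univ
    simp only [Set.mem_univ, if_true] at h1
    rwa [hdsum.tsum_eq] at h1
  · obtain ⟨δ, h1, h2⟩ := hlaw {A | (fun p : Part S ρ => p.1.1) '' A ∈ Φ}
    rw [(key Φ).tsum_eq]
    have h3 : (fun F : Finset (Part S ρ) => if (F : Set (Part S ρ)) ∈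
        {A : Set (Part S ρ) | (fun p : Part S ρ => p.1.1) '' A ∈ Φ} then d F else 0) =
        fun G => if ((g G : Finset ι) : Set ι) ∈ Φ then d G else 0 := by
      funext G
      rw [hgc]
      rfl
    rw [h3] at h2
    rw [h2.tsum_eq]
    refine h1.congr fun n _ => ?_
    rw [VV_eq]
    rfl

end Run7.h95.IP
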